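import Mathlib
import Pool.Agent.Q68.TD.Ex

/-!
# MP_0638d8_an, Q1 and Q2 (negative answers)

The example is the bilateral shift `ψ` on `S = ℤ → ℕ` with a product measure `P` of full support,
and `A = {x | x i ≤ K i for all i}` with `K` growing so fast that `P A > 0`. The metric is an
ultrametric for the product topology: the distance of two points is `w n`, where `n` is the first
level at which they differ, `w 0 = 1` and `w` decreases extremely fast. Then `ρ(ψⁿ A) = 0` for all
`n`, although `ρ(S) = 1`.

The definitions `rhoN`, `rho`, `essRho`, `IsMixing`, `BallsPositive`, `Question1`, `Question2` are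
in `Pool.Agent.Q68.TD.Defs`.
-/

open MeasureTheory Filter Topology Set
open scoped ENNReal

namespace Pool.Agent.Results.MP_0638d8_an.IteratesZeroDiameter

open Q68.TD

/-- The statement of Q1 and the statement of Q2 are false. Moreover, there is a counterexample to
both in which `S` is a Polish ultrametric space with its Borel sets, `ψ` is a homeomorphism, `A` is
closed, `ρ_k(S) = 1` for all `k ≥ 2`, and `ρ(ψⁿ A) = ess ρ(ψⁿ A) = 0` for all `n`. -/
theorem result : ¬ Question1 ∧ ¬ Question2 ∧
    ∃ (S : Type) (_ : MetricSpace S) (_ : MeasurableSpace S) (_ : BorelSpace S) (_ : PolishSpace S)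
      (_ : IsUltrametricDist S)
      (P : Measure S) (ψ : S ≃ₜ S) (A : Set S),
      IsProbabilityMeasure P ∧ BallsPositive P ∧ IsMixing P ψ ∧
      (∀ B : Set S, MeasurableSet B → MeasurableSet (ψ '' B)) ∧
      IsClosed A ∧ 0 < P A ∧
      (∀ n, Tendsto (fun k => rhoN k (ψ^[n] '' A)) atTop (𝓝 0)) ∧
      (∀ n, rho (ψ^[n] '' A) = 0) ∧ (∀ n, essRho P (ψ^[n] '' A) = 0) ∧
      (∀ k, 2 ≤ k → rhoN k (univ : Set S) = 1) ∧ rho (univ : Set S) = 1 := by
  let _ := met
  have hT := tendsto_rhoN_image
  have hrho : ∀ n, rho (shift^[n] '' A0) = 0 := fun n => (hT n).limsup_eq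
  have hM : ∀ n, MeasurableSet (shift^[n] '' A0) := by
    intro n
    induction n with
    | zero => simpa using A0_closed.measurableSet
    | succ n ih =>
      have : (shift^[n + 1] '' A0) = shift '' (shift^[n] '' A0) := by
        rw [Function.iterate_succ', image_comp]
      rw [this]
      exact shift.toMeasurableEquiv.measurableSet_image.2 ih
  have hess : ∀ n, essRho mu (shift^[n] '' A0) = 0 := by
    intro n
    apply le_antisymm _ bot_le
    unfold essRho
    exact iInf_le_of_le _ (iInf_le_of_le Subset.rfl (iInf_le_of_le (hM n)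
      (iInf_le_of_le rfl (hrho n).le)))
  have hu : ∀ k, 2 ≤ k → rhoN k (univ : Set (ℤ → ℕ)) = 1 := fun k hk => rhoN_univ hk
  have hrhou : rho (univ : Set (ℤ → ℕ)) = 1 := by
    apply Tendsto.limsup_eq
    apply tendsto_const_nhds.congr'
    filter_upwards [eventually_ge_atTop 2] with k hk
    exact (hu k hk).symm
  have himg : ∀ B : Set (ℤ → ℕ), MeasurableSet B → MeasurableSet (shift '' B) := fun B hB =>
    shift.toMeasurableEquiv.measurableSet_image.2 hB
  refine ⟨?_, ?_, ?_⟩
  · intro h
    have h1 := h (ℤ → ℕ) mu balls shift mixing_shift A0 A0_closed.measurableSet K_pos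
    rw [hrhou] at h1
    simp_rw [hrho] at h1
    exact zero_ne_one (tendsto_nhds_unique tendsto_const_nhds h1)
  · intro h
    have h1 := h (ℤ → ℕ) mu balls shift mixing_shift himg A0 A0_closed.measurableSet K_pos
    rw [hrhou] at h1
    simp_rw [hess] at h1
    exact zero_ne_one (tendsto_nhds_unique tendsto_const_nhds h1)
  · refine ⟨ℤ → ℕ, met, inferInstance, inferInstance, inferInstance,
      ⟨wd_ultra w_anti w_pos⟩, mu, shift, A0, inferInstance, balls, mixing_shift, himg,
      A0_closed, K_pos, hT, hrho, hess, hu, hrhou⟩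

end Pool.Agent.Results.MP_0638d8_an.IteratesZeroDiameter
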